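import Pool.Agent.H20.LIM.Targets

/-! # KER: the representation of a smoothed periodic profile as a potential -/

set_option autoImplicit false

open Complex MeasureTheory Set Filter Topology Metric

namespace Pool.Agent.H96.LIM.KER

open Pool.Agent.H20.LIM Pool.Agent.H23.GLM Pool.Agent.H23.DZ

lemma preim_ball {e : ℂ → ℂ} (hi : ∀ w z, dist (e w) (e z) = dist w z) (z : ℂ) (r : ℝ) :
    e ⁻¹' ball (e z) r = ball z r := by
  ext w
  simp [mem_ball, hi]

lemma integral_comp {e : ℂ → ℂ} (he : MeasurePreserving e) (hm : MeasurableEmbedding e)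
    (hi : ∀ w z, dist (e w) (e z) = dist w z) (r : ℝ) (f : ℂ → ℝ) (z : ℂ) :
    ∫ w in ball (e z) r, f w = ∫ w in ball z r, f (e w) := by
  rw [← he.setIntegral_preimage_emb hm f (ball (e z) r), preim_ball hi]

lemma av_comp {e : ℂ → ℂ} (he : MeasurePreserving e) (hm : MeasurableEmbedding e)
    (hi : ∀ w z, dist (e w) (e z) = dist w z) (r : ℝ) (f : ℂ → ℝ) (z : ℂ) :
    av r f (e z) = av r (fun w => f (e w)) z := by
  unfold av
  rw [setAverage_eq, setAverage_eq, integral_comp he hm hi, measureReal_def, measureReal_def,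
    Measure.addHaar_ball_center volume (e z), Measure.addHaar_ball_center volume z]

lemma av_add (r : ℝ) (f : ℂ → ℝ) (z h : ℂ) : av r f (z + h) = av r (fun w => f (w + h)) z :=
  av_comp (e := fun w => w + h) (measurePreserving_add_right volume h)
    (measurableEmbedding_addRight h) (fun _ _ => dist_add_right _ _ _) r f z

lemma emb_sub_left (a : ℂ) : MeasurableEmbedding fun w : ℂ => a - w :=
  (MeasurableEquiv.subLeft a).measurableEmbedding

lemma mp_sub_left (a : ℂ) : MeasurePreserving (fun w : ℂ => a - w) :=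
  Measure.measurePreserving_sub_left volume a

lemma av_sub (r : ℝ) (f : ℂ → ℝ) (a z : ℂ) : av r f (a - z) = av r (fun w => f (a - w)) z :=
  av_comp (e := fun w => a - w) (mp_sub_left a) (emb_sub_left a)
    (fun _ _ => dist_sub_left _ _ _) r f z

lemma av_smul_add {r : ℝ} {f g : ℂ → ℝ} (a : ℝ) (z : ℂ) (hf : IntegrableOn f (ball z r))
    (hg : IntegrableOn g (ball z r)) :
    av r (fun w => f w + a * g w) z = av r f z + a * av r g z := by
  unfold av
  rw [setAverage_eq, setAverage_eq, setAverage_eq, integral_add hf (hg.const_mul a),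
    integral_const_mul]
  simp only [smul_eq_mul]
  ring

lemma intOn_of_cont {f : ℂ → ℝ} (hf : Continuous f) (z : ℂ) (r : ℝ) :
    IntegrableOn f (ball z r) :=
  (hf.continuousOn.integrableOn_compact (isCompact_closedBall z r)).mono_set
    ball_subset_closedBall

lemma av_const {r : ℝ} (hr : 0 < r) (c : ℝ) (z : ℂ) : av r (fun _ => c) z = c := by
  unfold av
  exact setAverage_const (measure_ball_pos volume z hr).ne' measure_ball_lt_top.ne c

lemma av_re {r : ℝ} (hr : 0 < r) (z : ℂ) : av r (fun w => w.re) z = z.re := by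
  have h1 := av_sub r (fun w => w.re) (2 * z) z
  have e1 : 2 * z - z = z := by ring
  have e2 : (fun w : ℂ => (2 * z - w).re) = fun w : ℂ => (2 * z.re) + (-1) * w.re := by
    funext w
    simp
    ring
  rw [e1, e2, av_smul_add (f := fun _ => 2 * z.re) (g := fun w => w.re) (-1) z
    (intOn_of_cont continuous_const _ _) (intOn_of_cont continuous_re _ _), av_const hr] at h1
  linarith

lemma av_congr {r : ℝ} {f g : ℂ → ℝ} {z : ℂ} (h : ∀ w ∈ ball z r, f w = g w) :
    av r f z = av r g z := by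
  unfold av
  rw [setAverage_eq, setAverage_eq, setIntegral_congr_fun measurableSet_ball h]

lemma G_per {P : ℝ} (hP : 0 < P) (w : ℂ) :
    G (2 * Real.pi / P) (w + P * I) = G (2 * Real.pi / P) w ∧
      G (2 * Real.pi / P) (w - P * I) = G (2 * Real.pi / P) w := by
  have hPc : (P : ℂ) ≠ 0 := by exact_mod_cast hP.ne'
  unfold G
  constructor
  · have : cexp (-(((2 * Real.pi / P : ℝ) : ℂ) * (w + P * I))) =
        cexp (-(((2 * Real.pi / P : ℝ) : ℂ) * w)) := by
      rw [Complex.exp_eq_exp_iff_exists_int]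
      refine ⟨-1, ?_⟩
      push_cast
      field_simp
      ring
    rw [this]
  · have : cexp (-(((2 * Real.pi / P : ℝ) : ℂ) * (w - P * I))) =
        cexp (-(((2 * Real.pi / P : ℝ) : ℂ) * w)) := by
      rw [Complex.exp_eq_exp_iff_exists_int]
      refine ⟨1, ?_⟩
      push_cast
      field_simp
      ring
    rw [this]

/-- The size of `log ‖1 - s‖`. -/
lemma abs_log_one_sub_le {s : ℂ} {b : ℝ} (hb : b < 1) (hs : ‖s‖ ≤ b) :
    |Real.log ‖1 - s‖| ≤ ‖s‖ / (1 - b) := by
  have hs0 := norm_nonneg s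
  have h1 : 1 - ‖s‖ ≤ ‖1 - s‖ := by
    have := norm_sub_norm_le (1 : ℂ) s
    rwa [norm_one] at this
  have h2 : ‖1 - s‖ ≤ 1 + ‖s‖ := by
    have := norm_sub_le (1 : ℂ) s
    rwa [norm_one] at this
  have hpos : 0 < ‖1 - s‖ := by linarith
  rw [abs_le]
  constructor
  · have h3 : 1 - (‖1 - s‖)⁻¹ ≤ Real.log ‖1 - s‖ := Real.one_sub_inv_le_log_of_pos hpos
    have h4 : (‖1 - s‖)⁻¹ ≤ (1 - ‖s‖)⁻¹ := by
      apply inv_anti₀ (by linarith) h1
    have h5 : (1 - ‖s‖)⁻¹ - 1 = ‖s‖ / (1 - ‖s‖) := by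
      have : 1 - ‖s‖ ≠ 0 := by linarith
      field_simp
      ring
    have h6 : ‖s‖ / (1 - ‖s‖) ≤ ‖s‖ / (1 - b) := by
      apply div_le_div_of_nonneg_left hs0 (by linarith) (by linarith)
    linarith
  · have h3 : Real.log ‖1 - s‖ ≤ ‖1 - s‖ - 1 := Real.log_le_sub_one_of_pos hpos
    have h4 : ‖s‖ ≤ ‖s‖ / (1 - b) := by
      rw [le_div_iff₀ (by linarith)]
      nlinarith
    linarith

lemma G_decay {θ : ℝ} (hθ : 0 < θ) {w : ℂ} (hw : 1 ≤ w.re) :
    |G θ w| ≤ Real.exp (-(θ * w.re)) / (1 - Real.exp (-θ)) := by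
  have h1 : ‖cexp (-(θ * w))‖ = Real.exp (-(θ * w.re)) := by
    rw [Complex.norm_exp]
    simp
  have h2 : Real.exp (-θ) < 1 := by
    rw [Real.exp_lt_one_iff]; linarith
  unfold G
  rw [← h1]
  apply abs_log_one_sub_le h2
  rw [h1]
  apply Real.exp_le_exp.mpr
  nlinarith

/-- The function `V - (q/2) Re` of a nice function. -/
lemma nice_u {q P : ℝ} {V : ℂ → ℝ} (hV : Nice q P V) :
    Continuous V ∧ (∀ z : ℂ, V (z + P * I) - q / 2 * (z + P * I).re = V z - q / 2 * z.re) ∧
      (∀ z : ℂ, 1 / 2 ≤ z.re → V z - q / 2 * z.re = 0) ∧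
      ∃ C : ℝ, ∀ z : ℂ, |V z - q / 2 * z.re| ≤ C * (1 + |z.re|) := by
  obtain ⟨K, hK⟩ := hV.lip
  refine ⟨hK.continuous, fun z => ?_, fun z hz => ?_, |q| + K, fun z => ?_⟩
  · rw [hV.per]
    simp
  · rw [hV.out z (by rw [abs_of_nonneg (by linarith)]; exact hz), abs_of_nonneg (by linarith)]
    ring
  · have hx := abs_nonneg z.re
    have hK0 : (0 : ℝ) ≤ K := K.2
    have hq := abs_nonneg q
    rcases le_or_gt (1 / 2) |z.re| with h | h
    · rw [hV.out z h]
      have e1 : q / 2 * |z.re| - q / 2 * z.re = q / 2 * (|z.re| - z.re) := by ring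
      rw [e1, abs_mul, abs_div, abs_two]
      have h3 : abs (|z.re| - z.re) ≤ 2 * |z.re| := by
        rw [abs_of_nonneg (by linarith [le_abs_self z.re])]
        linarith [neg_abs_le z.re]
      calc |q| / 2 * abs (|z.re| - z.re) ≤ |q| / 2 * (2 * |z.re|) := by gcongr
        _ = |q| * |z.re| := by ring
        _ ≤ (|q| + K) * (1 + |z.re|) := by nlinarith
    · have h1 : dist (V z) (V (1 / 2 + z.im * I)) ≤ K * dist z (1 / 2 + z.im * I) :=
        hK.dist_le_mul _ _
      have h2 : V (1 / 2 + z.im * I) = q / 4 := by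
        rw [hV.out _ (by simp)]
        have : (1 / 2 + (z.im : ℂ) * I).re = 1 / 2 := by simp
        rw [this, abs_of_nonneg (by norm_num)]
        ring
      have h3 : dist z (1 / 2 + z.im * I) ≤ 1 := by
        have e1 : z - (1 / 2 + z.im * I) = ((z.re - 1 / 2 : ℝ) : ℂ) := by
          apply Complex.ext <;> simp
        rw [dist_eq_norm, e1, norm_real, Real.norm_eq_abs, abs_le]
        have := abs_lt.mp h
        constructor <;> linarith [this.1, this.2]
      rw [h2, Real.dist_eq] at h1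
      have h4 : |V z - q / 4| ≤ K := by nlinarith
      have h5 : |V z - q / 2 * z.re| ≤ |V z - q / 4| + |q / 4 - q / 2 * z.re| := by
        have := abs_add_le (V z - q / 4) (q / 4 - q / 2 * z.re)
        rwa [sub_add_sub_cancel] at this
      have h6 : |q / 4 - q / 2 * z.re| ≤ |q| := by
        have e2 : q / 4 - q / 2 * z.re = q * (1 / 4 - z.re / 2) := by ring
        rw [e2, abs_mul]
        have h7 : |1 / 4 - z.re / 2| ≤ 1 := by
          rw [abs_le]
          have := abs_lt.mp h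
          constructor <;> linarith [this.1, this.2]
        nlinarith
      nlinarith

lemma av_sub_out {q P r : ℝ} {V : ℂ → ℝ} (hV : Nice q P V) (hr : 0 < r) {ζ : ℂ}
    (hζ : 1 / 2 + r ≤ |ζ.re|) : av r V ζ - V ζ = 0 := by
  have hball : ∀ w ∈ ball ζ r, |w.re - ζ.re| < r := by
    intro w hw
    rw [mem_ball, dist_eq_norm] at hw
    have := abs_re_le_norm (w - ζ)
    rw [sub_re] at this
    linarith
  have hVζ := hV.out ζ (by linarith)
  rcases le_or_gt 0 ζ.re with h0 | h0
  · rw [abs_of_nonneg h0] at hζ hVζ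
    have h1 : av r V ζ = av r (fun w => 0 + q / 2 * w.re) ζ := by
      apply av_congr
      intro w hw
      have h2 := abs_lt.mp (hball w hw)
      rw [hV.out w (by rw [abs_of_nonneg (by linarith [h2.1])]; linarith [h2.1]),
        abs_of_nonneg (by linarith [h2.1]), zero_add]
    rw [h1, av_smul_add (f := fun _ => 0) (g := fun w => w.re) (q / 2) ζ
      (intOn_of_cont continuous_const _ _) (intOn_of_cont continuous_re _ _), av_const hr,
      av_re hr, hVζ]
    ring
  · rw [abs_of_neg h0] at hζ hVζ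
    have h1 : av r V ζ = av r (fun w => 0 + (-(q / 2)) * w.re) ζ := by
      apply av_congr
      intro w hw
      have h2 := abs_lt.mp (hball w hw)
      rw [hV.out w (by rw [abs_of_neg (by linarith [h2.2])]; linarith [h2.2]),
        abs_of_neg (by linarith [h2.2]), zero_add]
      ring
    rw [h1, av_smul_add (f := fun _ => 0) (g := fun w => w.re) (-(q / 2)) ζ
      (intOn_of_cont continuous_const _ _) (intOn_of_cont continuous_re _ _), av_const hr,
      av_re hr, hVζ]
    ring

lemma cell_sub_strip (P : ℝ) : cell P ⊆ strip P := fun _ hz => hz.2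

lemma meas_cell (P : ℝ) : MeasurableSet (cell P) := by
  have h1 : Measurable fun z : ℂ => |z.re| := by fun_prop
  exact (measurableSet_le h1 measurable_const).inter
    ((measurableSet_le measurable_const measurable_im).inter
      (measurableSet_lt measurable_im measurable_const))

lemma meas_strip (P : ℝ) : MeasurableSet (strip P) :=
  (measurableSet_le measurable_const measurable_im).inter
      (measurableSet_lt measurable_im measurable_const)

lemma kr_zero {r : ℝ} {w : ℂ} (h : r ≤ ‖w‖) : kr r w = 0 := if_neg (not_lt.mpr h)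

lemma kr_neg (r : ℝ) (w : ℂ) : kr r (-w) = kr r w := by
  unfold kr
  rw [norm_neg]

/-- The right hand side in the coordinates of the strip. -/
lemma kr_integral {P r : ℝ} (hr : 0 < r) (hrP : r < P / 4) (u : ℂ → ℝ) (z : ℂ) :
    ∫ ζ in strip P, kr r (z - (ζ + ((z.im - P / 2 : ℝ) : ℂ) * I)) *
      u (ζ + ((z.im - P / 2 : ℝ) : ℂ) * I) = ∫ w in ball (0 : ℂ) r, kr r w * u (z + w) := by
  set h : ℂ := ((z.im - P / 2 : ℝ) : ℂ) * I with hh
  have hsub : ball (z - h) r ⊆ strip P := by
    intro ζ hζ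
    rw [mem_ball, dist_eq_norm] at hζ
    have h1 := abs_im_le_norm (ζ - (z - h))
    have h2 : (ζ - (z - h)).im = ζ.im - P / 2 := by
      rw [hh]
      simp
    rw [h2] at h1
    have h3 := abs_lt.mp (h1.trans_lt hζ)
    exact ⟨by linarith [h3.1], by linarith [h3.2]⟩
  have e1 : ∫ ζ in strip P, kr r (z - (ζ + h)) * u (ζ + h) =
      ∫ ζ in ball (z - h) r, kr r (z - (ζ + h)) * u (ζ + h) := by
    apply setIntegral_eq_of_subset_of_forall_sdiff_eq_zero (meas_strip P) hsub
    intro ζ hζ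
    have h4 : r ≤ ‖z - (ζ + h)‖ := by
      by_contra hcon
      push Not at hcon
      apply hζ.2
      rw [mem_ball, dist_eq_norm, ← norm_neg]
      have : -(ζ - (z - h)) = z - (ζ + h) := by ring
      rwa [this]
    rw [kr_zero h4, zero_mul]
  have e2 := integral_comp (e := fun w => z - h + w) (measurePreserving_add_left volume (z - h))
    (measurableEmbedding_addLeft (z - h)) (fun _ _ => dist_add_left _ _ _) r
    (fun ζ => kr r (z - (ζ + h)) * u (ζ + h)) 0
  simp only [add_zero] at e2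
  rw [e1, e2]
  apply setIntegral_congr_fun measurableSet_ball
  intro w _
  show kr r (z - (z - h + w + h)) * u (z - h + w + h) = kr r w * u (z + w)
  have e3 : z - (z - h + w + h) = -w := by ring
  have e4 : z - h + w + h = z + w := by ring
  rw [e3, e4, kr_neg]

theorem pf_ker (hADJ : T_ADJ) (hAG : T_AG) (hSTR : T_STR) (hLI : T_LI) : T_KER := by
  intro q P r V hP hV hr hr4 hrP z
  obtain ⟨hVc, hper, hout, C, hC⟩ := nice_u hV
  have hpi := Real.pi_pos
  set θ : ℝ := 2 * Real.pi / P with hθ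
  have hθ0 : 0 < θ := by positivity
  set u : ℂ → ℝ := fun ζ => V ζ - q / 2 * ζ.re with hu
  set g : ℂ → ℝ := fun ζ => G θ (z - ζ) with hg
  have huc : Continuous u := hVc.sub (continuous_const.mul continuous_re)
  have hgper : ∀ ζ, g (ζ + P * I) = g ζ := by
    intro ζ
    have e1 : z - (ζ + P * I) = z - ζ - P * I := by ring
    show G θ (z - (ζ + P * I)) = G θ (z - ζ)
    rw [e1]
    exact (G_per hP (z - ζ)).2
  have hgloc : LocallyIntegrable g volume := by
    refine hLI (fun ζ => 1 - cexp (-(θ * (z - ζ)))) (by fun_prop) ⟨z - 1, ?_⟩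
    have e1 : z - (z - 1) = 1 := by ring
    show 1 - cexp (-((θ : ℂ) * (z - (z - 1)))) ≠ 0
    rw [e1, mul_one]
    intro h
    have h1 : ‖cexp (-(θ : ℂ))‖ = 1 := by
      rw [← sub_eq_zero.mp h, norm_one]
    rw [Complex.norm_exp, neg_re, ofReal_re, Real.exp_eq_one_iff] at h1
    linarith
  have hgdec : ∃ C c x₀ : ℝ, 0 < c ∧ ∀ ζ : ℂ, ζ.re ≤ x₀ → |g ζ| ≤ C * Real.exp (c * ζ.re) := by
    refine ⟨Real.exp (-(θ * z.re)) / (1 - Real.exp (-θ)), θ, z.re - 1, hθ0, fun ζ hζ => ?_⟩
    have h1 : 1 ≤ (z - ζ).re := by rw [sub_re]; linarith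
    refine (G_decay hθ0 h1).trans (le_of_eq ?_)
    have e1 : -(θ * (z - ζ).re) = -(θ * z.re) + θ * ζ.re := by rw [sub_re]; ring
    rw [e1, Real.exp_add]
    ring
  obtain ⟨hI1, hI2, hEq⟩ := hADJ P r g u hP hr hgper hper huc hgloc ⟨1 / 2, hout⟩ ⟨C, hC⟩ hgdec
  -- averages of u
  have havu : ∀ ζ, av r u ζ - u ζ = av r V ζ - V ζ := by
    intro ζ
    have h1 : av r u ζ = av r V ζ + (-(q / 2)) * av r (fun w => w.re) ζ := by
      rw [← av_smul_add (f := V) (g := fun w => w.re) (-(q / 2)) ζ (intOn_of_cont hVc _ _)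
        (intOn_of_cont continuous_re _ _)]
      apply av_congr
      intro w _
      show V w - q / 2 * w.re = V w + -(q / 2) * w.re
      ring
    rw [h1, av_re hr]
    show av r V ζ + -(q / 2) * ζ.re - (V ζ - q / 2 * ζ.re) = av r V ζ - V ζ
    ring
  simp only [havu] at hI1 hEq
  refine ⟨hI1.mono_set (cell_sub_strip P), ?_⟩
  have hcell : ∫ ζ in cell P, G θ (z - ζ) * (av r V ζ - V ζ) =
      ∫ ζ in strip P, g ζ * (av r V ζ - V ζ) := by
    symm
    apply setIntegral_eq_of_subset_of_forall_sdiff_eq_zero (meas_strip P) (cell_sub_strip P)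
    intro ζ hζ
    have h1 : 1 < |ζ.re| := by
      by_contra hcon
      push Not at hcon
      exact hζ.2 ⟨hcon, hζ.1⟩
    rw [av_sub_out hV hr (by linarith), mul_zero]
  -- the other side
  set f : ℂ → ℝ := fun ζ => (av r g ζ - g ζ) * u ζ with hf
  have hfper : ∀ ζ, f (ζ + P * I) = f ζ := by
    intro ζ
    have h1 : av r g (ζ + P * I) = av r g ζ := by
      rw [av_add]
      apply av_congr
      intro w _
      exact hgper w
    show (av r g (ζ + P * I) - g (ζ + P * I)) * u (ζ + P * I) = (av r g ζ - g ζ) * u ζ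
    have h2 : u (ζ + P * I) = u ζ := hper ζ
    rw [h1, hgper, h2]
  have hstr := (hSTR P f hP hfper hI2 (((z.im - P / 2 : ℝ) : ℂ) * I)).2
  have havg : ∀ ξ, av r g ξ = av r (G θ) (z - ξ) := fun ξ => (av_sub r (G θ) z ξ).symm
  have hfull : ∫ ζ in strip P, f (ζ + ((z.im - P / 2 : ℝ) : ℂ) * I) =
      Real.pi * r ^ 2 / 4 * ∫ w in ball (0 : ℂ) r, kr r w * u (z + w) := by
    rw [← kr_integral hr hrP u z, ← integral_const_mul]
    apply setIntegral_congr_ae (meas_strip P)
    have hne : ∀ᵐ ζ : ℂ, ζ ≠ z - ((z.im - P / 2 : ℝ) : ℂ) * I := by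
      rw [ae_iff]
      simp
    filter_upwards [hne] with ζ hζ hζs
    have h1 : z - (ζ + ((z.im - P / 2 : ℝ) : ℂ) * I) ≠ 0 := by
      intro h
      apply hζ
      linear_combination -h
    have h2 : |(z - (ζ + ((z.im - P / 2 : ℝ) : ℂ) * I)).im| ≤ P / 2 := by
      have e1 : (z - (ζ + ((z.im - P / 2 : ℝ) : ℂ) * I)).im = P / 2 - ζ.im := by
        simp
        ring
      rw [e1, abs_le]
      obtain ⟨h3, h4⟩ := hζs
      constructor <;> linarith
    have h3 := hAG P r _ hP hr (by linarith) h1 h2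
    show (av r g (ζ + ((z.im - P / 2 : ℝ) : ℂ) * I) - g (ζ + ((z.im - P / 2 : ℝ) : ℂ) * I)) *
      u (ζ + ((z.im - P / 2 : ℝ) : ℂ) * I) = _
    rw [havg, h3]
    show (G θ _ + _ - G θ _) * _ = _
    ring
  rw [hcell, hEq]
  show 4 / (Real.pi * r ^ 2) * ∫ ζ in strip P, f ζ = _
  rw [← hstr, hfull]
  have h4 : 4 / (Real.pi * r ^ 2) * (Real.pi * r ^ 2 / 4) = 1 := by
    have : Real.pi ≠ 0 := hpi.ne'
    field_simp
  rw [← mul_assoc, h4, one_mul]

end Pool.Agent.H96.LIM.KER
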