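import Pool.Agent.H20.LIM.Targets
import Pool.Agent.H23.DZ.Inst

/-! # LD: `L`-data from entire functions with an exponential functional equation -/

set_option autoImplicit false

open Complex MeasureTheory Set Filter Topology Metric

namespace Pool.Agent.H96.LIM

open Pool.Agent.H20.LIM Pool.Agent.H23.GLM Pool.Agent.H23.DZ Pool.Agent.H23.GLH

/-- There is a primitive Dirichlet character of conductor `3`. -/
lemma exists_primChar : ∃ π : PrimChar, π.q ≠ 1 := by
  have : Fact (Nat.Prime 3) := ⟨Nat.prime_three⟩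
  have h1 : quadraticChar (ZMod 3) ≠ 1 := quadraticChar_ne_one (by
    rw [ZMod.ringChar_zmod_n]; norm_num)
  let χ : DirichletCharacter ℂ 3 := (quadraticChar (ZMod 3)).ringHomComp (Int.castRingHom ℂ)
  have h2 : χ ≠ 1 := (MulChar.ringHomComp_ne_one_iff Int.cast_injective).mpr h1
  refine ⟨⟨3, ⟨by norm_num⟩, χ, ?_⟩, by norm_num⟩
  rw [DirichletCharacter.isPrimitive_def]
  have h3 : χ.conductor ∣ 3 := χ.conductor_dvd_level
  rcases (Nat.dvd_prime Nat.prime_three).mp h3 with h | h
  · exact absurd (DirichletCharacter.eq_one_iff_conductor_eq_one.mpr h) h2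
  · exact h

lemma natCast_pow_cpow (q m : ℕ) (w : ℂ) : ((q ^ m : ℕ) : ℂ) ^ w = ((q : ℂ) ^ w) ^ m := by
  induction m with
  | zero => simp
  | succ n ih =>
    rw [pow_succ, pow_succ, Nat.cast_mul, natCast_mul_natCast_cpow, ih]

lemma norm_natCast_cpow_I (n : ℕ) (hn : 0 < n) (τ : ℝ) : ‖(n : ℂ) ^ ((τ : ℂ) * I)‖ = 1 := by
  rw [norm_natCast_cpow_of_pos hn]
  simp

lemma archFactor_const (m : ℕ) (a : ℂ) (τ : ℝ) (s : ℂ) :
    archFactor (fun _ : Fin m => a + τ * I) s = Gammaℝ ((s - τ * I) - a) ^ m := by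
  rw [archFactor, Finset.prod_const, Finset.card_univ, Fintype.card_fin]
  congr 2
  ring

theorem pf_ld : T_LD := by
  intro m
  obtain ⟨π₀, hq⟩ := exists_primChar
  have := π₀.q_ne
  have hq0 : 0 < π₀.q := NeZero.pos π₀.q
  set a : ℂ := par π₀.χ with ha
  have hare : a.re < 1 / 2 := (ofPrimChar π₀).re_μ_lt 0
  have hχ1 : π₀.χ ≠ 1 := π₀.χ_ne_one hq
  have hdiff : Differentiable ℂ π₀.L := DirichletCharacter.differentiable_LFunction hχ1
  have hfar := farBounds_primChar {π₀}
  have hmol := molteni_primChar {π₀}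
  have hmem : ofPrimChar π₀ ∈ ofPrimChar '' {π₀} := ⟨π₀, rfl, rfl⟩
  refine ⟨π₀.q ^ m, a, fun s => π₀.L s ^ m, Nat.one_le_pow _ _ hq0, hdiff.pow m, ?_, ?_, ?_⟩
  · obtain ⟨σ₁, c, hc, h⟩ := hfar
    refine ⟨σ₁, c ^ m, by positivity, fun s hs => ?_⟩
    obtain ⟨h1, h2⟩ := h _ hmem s hs
    rw [ofPrimChar_L] at h1 h2
    simp only [norm_pow, ← inv_pow]
    exact ⟨pow_le_pow_left₀ hc.le h1 m, pow_le_pow_left₀ (norm_nonneg _) h2 m⟩
  · intro ε hε
    obtain ⟨B, hB⟩ := hmol ε hε
    refine ⟨(B * (ofPrimChar π₀).C ^ ε) ^ m, fun s hs => ?_⟩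
    have h1 := hB _ hmem s hs
    rw [ofPrimChar_L] at h1
    simp only [norm_pow]
    exact pow_le_pow_left₀ (norm_nonneg _) h1 m
  · intro N F τ hN hF
    have hN0 : 0 < N := hN
    have hNc : (N : ℂ) ≠ 0 := by exact_mod_cast hN0.ne'
    have hqc : (π₀.q : ℂ) ≠ 0 := by exact_mod_cast hq0.ne'
    -- the functional equation of the power
    have hfun1 : ∀ s : ℂ, archFactor (fun _ : Fin m => a + τ * I) s ≠ 0 →
        archFactor (fun _ : Fin m => a + τ * I) (1 - (starRingEnd ℂ) s) ≠ 0 →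
        archFactor (fun _ : Fin m => a + τ * I) s * π₀.L (s - τ * I) ^ m =
          DirichletCharacter.rootNumber π₀.χ ^ m * ((π₀.q : ℂ) ^ (1 / 2 - (s - τ * I))) ^ m *
          (starRingEnd ℂ) (archFactor (fun _ : Fin m => a + τ * I) (1 - (starRingEnd ℂ) s) *
            π₀.L (1 - (starRingEnd ℂ) s - τ * I) ^ m) := by
      intro s h1 h2
      rw [archFactor_const] at h1 h2 ⊢
      rw [archFactor_const]
      rcases Nat.eq_zero_or_pos m with rfl | hm
      · simp
      · have h1' : Gammaℝ ((s - τ * I) - a) ≠ 0 := fun h => h1 (by rw [h, zero_pow hm.ne'])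
        have h2' : Gammaℝ ((1 - (starRingEnd ℂ) s - τ * I) - a) ≠ 0 :=
          fun h => h2 (by rw [h, zero_pow hm.ne'])
        have e1 : 1 - (starRingEnd ℂ) (s - τ * I) = 1 - (starRingEnd ℂ) s - τ * I := by
          rw [map_sub, map_mul, conj_I, conj_ofReal]; ring
        have key := functional_dirichlet π₀.χ π₀.prim (s - τ * I) h1' (by rw [e1]; exact h2')
        rw [e1] at key
        have key' := congrArg (fun x => x ^ m) key
        simp only [mul_pow, ← map_pow] at key'
        exact key'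
    refine ⟨{ N := π₀.q ^ m * N
              N_ne := Nat.mul_ne_zero (pow_ne_zero _ hq0.ne') hN0.ne'
              μ := fun _ => a + τ * I
              re_μ_lt := fun _ => by simpa using hare
              L := fun s => π₀.L (s - τ * I) ^ m * F (s - 1 / 2 - τ * I)
              regular := Or.inl ⟨?_, ?_⟩
              functional := ?_ }, rfl, fun _ => rfl, fun _ => rfl⟩
    · refine Differentiable.mul ?_ ?_
      · exact (hdiff.comp (by fun_prop : Differentiable ℂ fun s : ℂ => s - τ * I)).pow m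
      · exact hF.diff.comp (by fun_prop : Differentiable ℂ fun s : ℂ => s - 1 / 2 - τ * I)
    · intro σ₁ σ₂
      obtain ⟨A₁, k, h1⟩ := LFunction_order π₀.χ hq π₀.prim hχ1 σ₁ σ₂
      obtain ⟨A₂, B₂, h2⟩ := hF.growth
      set M : ℝ := |σ₁| + |σ₂| + 1 with hM
      refine ⟨m * (|A₁| * (1 + |τ|) ^ k) + (|A₂| + |B₂| * M), k, fun s hs1 hs2 => ?_⟩
      have hns := norm_nonneg s
      have hk1 : (1 : ℝ) ≤ (1 + ‖s‖) ^ k := one_le_pow₀ (by linarith)
      have b1 : ‖π₀.L (s - τ * I)‖ ≤ Real.exp (|A₁| * (1 + |τ|) ^ k * (1 + ‖s‖) ^ k) := by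
        refine (h1 (s - τ * I) (by simpa using hs1) (by simpa using hs2)).trans ?_
        apply Real.exp_le_exp.mpr
        have h3 : ‖s - τ * I‖ ≤ ‖s‖ + |τ| := by
          refine (norm_sub_le _ _).trans ?_
          simp
        have h4 : 1 + ‖s - τ * I‖ ≤ (1 + |τ|) * (1 + ‖s‖) := by
          have := abs_nonneg τ
          nlinarith
        have h5 : (0 : ℝ) ≤ 1 + ‖s - τ * I‖ := by positivity
        calc A₁ * (1 + ‖s - τ * I‖) ^ k ≤ |A₁| * (1 + ‖s - τ * I‖) ^ k := by
              gcongr; exact le_abs_self _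
          _ ≤ |A₁| * ((1 + |τ|) * (1 + ‖s‖)) ^ k := by gcongr
          _ = _ := by rw [mul_pow]; ring
      have b2 : ‖F (s - 1 / 2 - τ * I)‖ ≤ Real.exp ((|A₂| + |B₂| * M) * (1 + ‖s‖) ^ k) := by
        refine (h2 _).trans ?_
        apply Real.exp_le_exp.mpr
        have hre : (s - 1 / 2 - τ * I).re = s.re - 1 / 2 := by simp
        have h3 : |(s - 1 / 2 - τ * I).re| ≤ M := by
          rw [hre, abs_le]
          have a1 := neg_abs_le σ₁
          have a2 := le_abs_self σ₂
          have a3 := abs_nonneg σ₁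
          have a4 := abs_nonneg σ₂
          constructor <;> linarith
        have hM0 : 0 ≤ M := by positivity
        calc A₂ + B₂ * |(s - 1 / 2 - τ * I).re| ≤ |A₂| + |B₂| * M := by
              have := le_abs_self A₂
              have h6 : B₂ * |(s - 1 / 2 - τ * I).re| ≤ |B₂| * M := by
                calc _ ≤ |B₂| * |(s - 1 / 2 - τ * I).re| := by gcongr; exact le_abs_self _
                  _ ≤ _ := by gcongr
              linarith
          _ = (|A₂| + |B₂| * M) * 1 := (mul_one _).symm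
          _ ≤ _ := by gcongr
      rw [norm_mul, norm_pow]
      calc ‖π₀.L (s - τ * I)‖ ^ m * ‖F (s - 1 / 2 - τ * I)‖
          ≤ Real.exp (|A₁| * (1 + |τ|) ^ k * (1 + ‖s‖) ^ k) ^ m *
            Real.exp ((|A₂| + |B₂| * M) * (1 + ‖s‖) ^ k) := by gcongr
        _ = _ := by
          rw [← Real.exp_nat_mul, ← Real.exp_add]
          congr 1
          ring
    · obtain ⟨εF, hεF, hfe⟩ := hF.fe
      refine ⟨DirichletCharacter.rootNumber π₀.χ ^ m * ((π₀.q : ℂ) ^ ((τ : ℂ) * I)) ^ m *
        (εF * (N : ℂ) ^ ((τ : ℂ) * I)), ?_, fun s h1 h2 => ?_⟩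
      · rw [norm_mul, norm_mul, norm_mul, norm_pow, norm_pow, norm_rootNumber π₀.χ π₀.prim,
          norm_natCast_cpow_I _ hq0, norm_natCast_cpow_I _ hN0, hεF]
        simp
      · have key := hfun1 s h1 h2
        have e2 : -(starRingEnd ℂ) (s - 1 / 2 - τ * I) =
            1 - (starRingEnd ℂ) s - 1 / 2 - τ * I := by
          rw [map_sub, map_sub, map_mul, conj_I, conj_ofReal, map_div₀, map_one, map_ofNat]
          ring
        have key2 := hfe (s - 1 / 2 - τ * I)
        rw [e2] at key2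
        have e3 : ((π₀.q : ℂ) ^ (1 / 2 - (s - τ * I))) =
            (π₀.q : ℂ) ^ (1 / 2 - s) * (π₀.q : ℂ) ^ ((τ : ℂ) * I) := by
          rw [← cpow_add _ _ hqc]
          congr 1
          ring
        have e4 : (N : ℂ) ^ (-(s - 1 / 2 - τ * I)) =
            (N : ℂ) ^ (1 / 2 - s) * (N : ℂ) ^ ((τ : ℂ) * I) := by
          rw [← cpow_add _ _ hNc]
          congr 1
          ring
        rw [e3] at key
        rw [e4] at key2
        show archFactor (fun _ : Fin m => a + τ * I) s *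
          (π₀.L (s - τ * I) ^ m * F (s - 1 / 2 - τ * I)) = _ * ((π₀.q ^ m * N : ℕ) : ℂ) ^ (1 / 2 - s) *
          (starRingEnd ℂ) (archFactor (fun _ : Fin m => a + τ * I) (1 - (starRingEnd ℂ) s) *
            (π₀.L (1 - (starRingEnd ℂ) s - τ * I) ^ m *
              F (1 - (starRingEnd ℂ) s - 1 / 2 - τ * I)))
        rw [← mul_assoc, key, key2, Nat.cast_mul, natCast_mul_natCast_cpow, natCast_pow_cpow]
        simp only [map_mul, mul_pow]
        ring

end Pool.Agent.H96.LIM
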