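import Pool.Agent.H20.LIM.Targets

/-! # REAL: every profile is a limit -/

set_option autoImplicit false

open Complex MeasureTheory Set Filter Topology Metric

namespace Pool.Agent.H96.LIM.REAL

open Pool.Agent.H20.LIM Pool.Agent.H23.GLM Pool.Agent.H23.DZ

theorem ae_ne {g : ℂ → ℂ} (hg : Differentiable ℂ g) {x : ℂ} (hx : g x ≠ 0) :
    ∀ᵐ z : ℂ, g z ≠ 0 := by
  have h1 : AnalyticOnNhd ℂ g univ := fun z _ => hg.analyticAt z
  have h2 := h1.preimage_zero_mem_codiscrete hx
  have h3 := ae_restrict_le_codiscreteWithin (μ := (volume : Measure ℂ)) MeasurableSet.univ h2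
  rw [Measure.restrict_univ] at h3
  exact h3

lemma toL1_of (hLI : T_LI) {A : ℂ → ℂ} (hA : Differentiable ℂ A) (hA0 : ∃ z, A z ≠ 0)
    {F : ℕ → ℂ → ℂ} (hF : ∀ n, Differentiable ℂ (F n)) (hF0 : ∀ n, ∃ z, F n z ≠ 0)
    {Λ : ℕ → ℝ} (hΛ : Tendsto Λ atTop atTop) {f : ℕ → ℂ → ℝ}
    (hf : ∀ n z, f n z = Real.log ‖A (1 / 2 + z) * F n z‖ / Λ n) {u : ℂ → ℝ}
    (hu : AEStronglyMeasurable u volume)
    (h : ∀ R : ℝ, Tendsto (fun n => ∫⁻ z in closedBall (0 : ℂ) R,
      ‖Real.log ‖F n z‖ / Λ n - u z‖ₑ) atTop (𝓝 0)) : ToL1 f u := by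
  refine ⟨hu, fun R => ?_⟩
  obtain ⟨zA, hzA⟩ := hA0
  have hA' : Differentiable ℂ fun z => A (1 / 2 + z) :=
    hA.comp (by fun_prop : Differentiable ℂ fun z : ℂ => 1 / 2 + z)
  have hzA' : (fun z => A (1 / 2 + z)) (zA - 1 / 2) ≠ 0 := by
    show A (1 / 2 + (zA - 1 / 2)) ≠ 0
    rwa [add_sub_cancel]
  have hloc := hLI _ hA' ⟨_, hzA'⟩
  have hint : IntegrableOn (fun z => Real.log ‖A (1 / 2 + z)‖) (closedBall (0 : ℂ) R) :=
    hloc.integrableOn_isCompact (isCompact_closedBall 0 R)
  set IA := ∫⁻ z in closedBall (0 : ℂ) R, ‖Real.log ‖A (1 / 2 + z)‖‖ₑ with hIA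
  have hIA' : IA ≠ ⊤ := hint.2.ne
  have hlim : Tendsto (fun n => IA * ‖(Λ n)⁻¹‖ₑ + ∫⁻ z in closedBall (0 : ℂ) R,
      ‖Real.log ‖F n z‖ / Λ n - u z‖ₑ) atTop (𝓝 0) := by
    have h1 : Tendsto (fun n => ‖(Λ n)⁻¹‖ₑ) atTop (𝓝 0) := by
      have := (tendsto_inv_atTop_zero.comp hΛ).enorm
      simpa using this
    have h2 := (ENNReal.Tendsto.const_mul h1 (Or.inr hIA')).add (h R)
    rwa [mul_zero, add_zero] at h2
  refine tendsto_of_tendsto_of_tendsto_of_le_of_le tendsto_const_nhds hlim
    (fun n => zero_le) (fun n => ?_)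
  obtain ⟨zF, hzF⟩ := hF0 n
  have hae : ∀ᵐ z : ℂ ∂(volume.restrict (closedBall (0 : ℂ) R)), ‖f n z - u z‖ₑ ≤
      ‖Real.log ‖A (1 / 2 + z)‖‖ₑ * ‖(Λ n)⁻¹‖ₑ + ‖Real.log ‖F n z‖ / Λ n - u z‖ₑ := by
    apply ae_restrict_of_ae
    filter_upwards [ae_ne hA' hzA', ae_ne (hF n) hzF] with z h1 h2
    have e1 : f n z - u z = Real.log ‖A (1 / 2 + z)‖ * (Λ n)⁻¹ +
        (Real.log ‖F n z‖ / Λ n - u z) := by
      rw [hf, norm_mul, Real.log_mul (norm_ne_zero_iff.mpr h1) (norm_ne_zero_iff.mpr h2)]
      ring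
    rw [e1, ← enorm_mul]
    exact enorm_add_le _ _
  refine (lintegral_mono_ae hae).trans (le_of_eq ?_)
  rw [lintegral_add_left' (hint.aestronglyMeasurable.enorm.mul_const _),
    lintegral_mul_const' _ _ (by simp)]

lemma mp_refl : MeasurePreserving (fun z : ℂ => -(starRingEnd ℂ) z) := by
  have h1 : MeasurePreserving (fun z : ℂ => (starRingEnd ℂ) z) :=
    (Complex.conjLIE).measurePreserving
  have h2 : MeasurePreserving (fun z : ℂ => -z) := Measure.measurePreserving_neg volume
  exact h2.comp h1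

lemma profile_zero (hSMP : T_SMP) {u : ℂ → ℝ} (hu : Profile 0 u) : ∀ᵐ z : ℂ, u z = 0 := by
  have hle : ∀ᵐ z : ℂ, z ∈ (univ : Set ℂ) → u z ≤ 0 := by
    have h1 : ∀ᵐ z : ℂ, 1 / 2 < (-(starRingEnd ℂ) z).re → u (-(starRingEnd ℂ) z) = 0 :=
      mp_refl.quasiMeasurePreserving.ae hu.right
    filter_upwards [h1, hu.right, hu.func, hu.conv] with z a1 a2 a3 a4 _
    rcases lt_or_ge (1 / 2) z.re with b | b
    · exact (a2 b).le
    · rcases lt_or_ge z.re (-(1 / 2)) with b' | b'
      · have h2 := a1 (by simp; linarith)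
        rw [h2] at a3
        linarith
      · have h3 := a4 (abs_le.mpr ⟨b', b⟩)
        simpa using h3
  have h := hSMP u univ hu.loc hu.sub isOpen_univ isPreconnected_univ hle
    ⟨2, 1, one_pos, subset_univ _, ?_⟩
  · filter_upwards [h] with z hz using hz (mem_univ z)
  · filter_upwards [hu.right] with z hz hzb
    apply hz
    rw [mem_ball, dist_eq_norm] at hzb
    have h1 := (abs_re_le_norm (z - 2)).trans_lt hzb
    have h2 : (z - 2).re = z.re - 2 := by simp
    rw [h2] at h1
    have := (abs_lt.mp h1).1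
    linarith

lemma ep_one : EP 1 (fun _ => 1) where
  diff := differentiable_const _
  growth := ⟨0, 0, fun z => by simp⟩
  right := fun _ => ⟨1, fun z _ => by simp⟩
  fe := ⟨1, by simp, fun z => by simp⟩

lemma log_ratio {a : ℂ} {τ : ℝ} (hτ : 0 ≤ τ) :
    |Real.log (1 + ‖a + τ * I‖) - Real.log (1 + τ)| ≤ Real.log (1 + ‖a‖) := by
  have ha := norm_nonneg a
  have hb := norm_nonneg (a + τ * I)
  have h1 : ‖a + τ * I‖ ≤ ‖a‖ + τ := by
    refine (norm_add_le _ _).trans ?_
    simp [abs_of_nonneg hτ]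
  have h2 : τ ≤ ‖a + τ * I‖ + ‖a‖ := by
    have h3 := norm_sub_le (a + τ * I) a
    have h4 : ‖a + τ * I - a‖ = τ := by
      rw [add_sub_cancel_left]
      simp [abs_of_nonneg hτ]
    linarith
  rw [abs_le]
  constructor
  · have h5 : Real.log (1 + τ) ≤ Real.log ((1 + ‖a‖) * (1 + ‖a + τ * I‖)) := by
      apply Real.log_le_log (by linarith)
      nlinarith
    rw [Real.log_mul (by linarith) (by linarith)] at h5
    linarith
  · have h5 : Real.log (1 + ‖a + τ * I‖) ≤ Real.log ((1 + ‖a‖) * (1 + τ)) := by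
      apply Real.log_le_log (by linarith)
      nlinarith
    rw [Real.log_mul (by linarith) (by linarith)] at h5
    linarith

lemma ratio_lim {X l : ℕ → ℝ} {C : ℝ} (hl : Tendsto l atTop atTop) (h : ∀ n, |X n - l n| ≤ C) :
    Tendsto X atTop atTop ∧ Tendsto (fun n => l n / X n) atTop (𝓝 1) := by
  have hX : Tendsto X atTop atTop := by
    apply tendsto_atTop_mono (f := fun n => l n + (-C))
    · intro n
      have := (abs_le.mp (h n)).1
      linarith
    · exact tendsto_atTop_add_const_right _ _ hl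
  refine ⟨hX, ?_⟩
  have h1 : Tendsto (fun n => (X n - l n) / X n) atTop (𝓝 0) := by
    apply squeeze_zero_norm' (a := fun n => |C| / X n)
    · filter_upwards [hX.eventually_gt_atTop 0] with n hn
      rw [norm_div, Real.norm_of_nonneg hn.le, Real.norm_eq_abs]
      exact div_le_div_of_nonneg_right ((h n).trans (le_abs_self C)) hn.le
    · exact Tendsto.div_atTop tendsto_const_nhds hX
  have h2 : Tendsto (fun n => 1 - (X n - l n) / X n) atTop (𝓝 1) := by
    have := (tendsto_const_nhds (x := (1 : ℝ))).sub h1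
    rwa [sub_zero] at this
  apply h2.congr'
  filter_upwards [hX.eventually_gt_atTop 0] with n hn
  field_simp
  ring

theorem pf_real (hFAMR : T_FAMR) (hEXPA : T_EXPA) (hSMP : T_SMP) (hLI : T_LI) : T_REAL := by
  intro m q u hm hq0 hq1 hu
  obtain ⟨N₀, a, A, hN₀, hA, hA0, hfam⟩ := hFAMR m
  have hN₀' : (1 : ℝ) ≤ N₀ := by exact_mod_cast hN₀
  have ha := norm_nonneg a
  rcases hq0.eq_or_lt with rfl | hq
  · -- the case q = 0
    have hu0 := profile_zero hSMP hu
    obtain ⟨π, hM, hFB, hπ⟩ := hfam (fun _ => 1) (fun _ _ => 1) (fun n => n) (fun _ => le_rfl)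
      (fun _ => ep_one) (fun n z _ => by simp) (fun n z _ => by simp)
    have hX : Tendsto (fun n : ℕ => (π n).X n) atTop atTop := by
      apply tendsto_atTop_mono (f := fun n : ℕ => (n : ℝ) + 1)
      · intro n
        rw [(hπ n).1]
        have hn : (0 : ℝ) ≤ n := Nat.cast_nonneg n
        have h1 : (1 : ℝ) ≤ (1 + ‖a + ((n : ℝ) : ℂ) * I‖) ^ m :=
          one_le_pow₀ (by have := norm_nonneg (a + ((n : ℝ) : ℂ) * I); linarith)
        have h2 : (n : ℝ) + 1 ≤ (1 + |(n : ℝ)|) ^ m := by
          rw [abs_of_nonneg hn, add_comm (n : ℝ) 1]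
          exact le_self_pow₀ (by linarith) (by omega)
        calc (n : ℝ) + 1 = 1 * 1 * ((n : ℝ) + 1) := by ring
          _ ≤ N₀ * (1 + ‖a + ((n : ℝ) : ℂ) * I‖) ^ m * (1 + |(n : ℝ)|) ^ m := by gcongr
          _ = _ := by push_cast; ring
      · exact tendsto_atTop_add_const_right _ _ tendsto_natCast_atTop_atTop
    have hlX := Real.tendsto_log_atTop.comp hX
    refine ⟨range π, hM, hFB, π, fun n => n, fun k => ⟨k, rfl⟩, hX, ?_, ?_⟩
    · have h1 : (fun k : ℕ => Real.log ((π k).Q k) / Real.log ((π k).X k)) =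
          fun k : ℕ => Real.log (N₀ * ((1 : ℕ) : ℝ) * (1 + ‖a‖) ^ m) / Real.log ((π k).X k) := by
        funext k
        rw [(hπ k).2.1]
      rw [h1]
      exact Tendsto.div_atTop tendsto_const_nhds hlX
    · refine toL1_of (F := fun _ _ => 1) (Λ := fun k => Real.log ((π k).X k)) hLI hA hA0
        (fun n => differentiable_const _) (fun n => ⟨0, one_ne_zero⟩) hlX ?_
        hu.loc.aestronglyMeasurable ?_
      · intro n z
        unfold U
        rw [(hπ n).2.2 z]
      · intro R
        have h1 : (fun n : ℕ => ∫⁻ z in closedBall (0 : ℂ) R,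
            ‖Real.log ‖(1 : ℂ)‖ / Real.log ((π n).X n) - u z‖ₑ) = fun _ => 0 := by
          funext n
          rw [lintegral_eq_zero_iff']
          · apply ae_restrict_of_ae
            filter_upwards [hu0] with z hz
            simp [hz]
          · exact (aestronglyMeasurable_const.sub
              hu.loc.aestronglyMeasurable.restrict).enorm
        rw [h1]
        exact tendsto_const_nhds
  · -- the case q > 0
    have hex := fun n : ℕ => hEXPA q u hq hq1 hu (n + 1) (1 / (n + 1 : ℝ)) (n + 1)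
      (by positivity) (by positivity)
    choose N F hN hEP hlN hL1 hFb hF1 using hex
    set L : ℕ → ℝ := fun n => Real.log (N n) with hL
    set τ : ℕ → ℝ := fun n => Real.exp (L n * (1 / q - 1) / (2 * m)) - 1 with hτ
    have hm' : (0 : ℝ) < m := by exact_mod_cast hm
    have hq' : 0 ≤ 1 / q - 1 := by
      have : 1 ≤ 1 / q := by rw [le_div_iff₀ hq]; linarith
      linarith
    have hLn : ∀ n : ℕ, (n : ℝ) + 1 ≤ L n := hlN
    have hL0 : ∀ n : ℕ, 0 < L n := fun n => by
      have := hLn n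
      have hn : (0 : ℝ) ≤ n := Nat.cast_nonneg n
      linarith
    have hτ0 : ∀ n, 0 ≤ τ n := by
      intro n
      have h1 : 0 ≤ L n * (1 / q - 1) / (2 * m) := by
        have := (hL0 n).le
        positivity
      have := Real.one_le_exp h1
      simp only [hτ]
      linarith
    have hlτ : ∀ n, Real.log (1 + τ n) = L n * (1 / q - 1) / (2 * m) := by
      intro n
      simp only [hτ]
      rw [add_sub_cancel, Real.log_exp]
    obtain ⟨π, hM, hFB, hπ⟩ := hfam N F τ hN hEP hFb hF1
    set C₀ : ℝ := Real.log N₀ + m * Real.log (1 + ‖a‖) with hC₀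
    have hNpos : ∀ n, (0 : ℝ) < N n := fun n => by exact_mod_cast hN n
    have hlX : ∀ n, |Real.log ((π n).X (τ n)) - L n / q| ≤ C₀ := by
      intro n
      have h0 := hτ0 n
      have hb := norm_nonneg (a + τ n * I)
      have h1 : Real.log ((π n).X (τ n)) = Real.log N₀ + L n +
          m * Real.log (1 + ‖a + τ n * I‖) + m * Real.log (1 + τ n) := by
        have c1 : (N₀ : ℝ) ≠ 0 := by linarith
        have c2 : (N n : ℝ) ≠ 0 := (hNpos n).ne'
        have c3 : (1 + ‖a + τ n * I‖) ^ m ≠ 0 := by positivity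
        have c4 : (1 + |τ n|) ^ m ≠ 0 := by positivity
        rw [(hπ n).1, Real.log_mul (mul_ne_zero (mul_ne_zero c1 c2) c3) c4,
          Real.log_mul (mul_ne_zero c1 c2) c3, Real.log_mul c1 c2, Real.log_pow, Real.log_pow,
          abs_of_nonneg h0]
      have h2 := log_ratio (a := a) h0
      have h3 : 2 * (m * Real.log (1 + τ n)) = L n * (1 / q - 1) := by
        rw [hlτ]
        field_simp
      have h4 : Real.log ((π n).X (τ n)) - L n / q = Real.log N₀ +
          m * (Real.log (1 + ‖a + τ n * I‖) - Real.log (1 + τ n)) := by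
        rw [h1]
        have e1 : L n / q = L n + L n * (1 / q - 1) := by ring
        rw [e1, ← h3]
        ring
      rw [h4]
      have h5 : 0 ≤ Real.log N₀ := Real.log_nonneg hN₀'
      calc |Real.log N₀ + m * (Real.log (1 + ‖a + τ n * I‖) - Real.log (1 + τ n))|
          ≤ |Real.log N₀| + |(m : ℝ) * (Real.log (1 + ‖a + τ n * I‖) - Real.log (1 + τ n))| :=
            abs_add_le _ _
        _ ≤ Real.log N₀ + m * Real.log (1 + ‖a‖) := by
            rw [abs_of_nonneg h5, abs_mul, abs_of_pos hm']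
            gcongr
    have hltop : Tendsto (fun n => L n / q) atTop atTop := by
      apply Tendsto.atTop_div_const hq
      exact tendsto_atTop_mono hLn (tendsto_atTop_add_const_right _ _
        tendsto_natCast_atTop_atTop)
    obtain ⟨hlXtop, hrat⟩ := ratio_lim hltop hlX
    have hX0 : ∀ n, 0 < (π n).X (τ n) := by
      intro n
      rw [(hπ n).1]
      have := hNpos n
      positivity
    have hX : Tendsto (fun n => (π n).X (τ n)) atTop atTop := by
      have h1 := Real.tendsto_exp_atTop.comp hlXtop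
      refine h1.congr fun n => ?_
      exact Real.exp_log (hX0 n)
    refine ⟨range π, hM, hFB, π, τ, fun k => ⟨k, rfl⟩, hX, ?_, ?_⟩
    · have h1 : (fun k : ℕ => Real.log ((π k).Q (τ k)) / Real.log ((π k).X (τ k))) =
          fun k : ℕ => q * (L k / q / Real.log ((π k).X (τ k))) +
            C₀ / Real.log ((π k).X (τ k)) := by
        funext k
        have c1 : (N₀ : ℝ) ≠ 0 := by linarith
        have c2 : (N k : ℝ) ≠ 0 := (hNpos k).ne'
        have c3 : (1 + ‖a‖) ^ m ≠ 0 := by positivity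
        rw [(hπ k).2.1, Real.log_mul (mul_ne_zero c1 c2) c3, Real.log_mul c1 c2, Real.log_pow,
          hC₀]
        have e1 : q * (L k / q / Real.log ((π k).X (τ k))) = L k / Real.log ((π k).X (τ k)) := by
          field_simp
        rw [e1]
        ring
      rw [h1]
      have h2 := (hrat.const_mul q).add (Tendsto.div_atTop (tendsto_const_nhds (x := C₀)) hlXtop)
      rwa [mul_one, add_zero] at h2
    · refine toL1_of (F := F) (Λ := fun k => Real.log ((π k).X (τ k))) hLI hA hA0
        (fun n => (hEP n).diff) (fun n => ⟨1, ?_⟩) hlXtop ?_ hu.loc.aestronglyMeasurable ?_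
      · intro h
        have h1 := hF1 n 1 (by simp)
        rw [h] at h1
        norm_num at h1
      · intro n z
        unfold U
        rw [(hπ n).2.2 z]
      · intro R
        set Iu := ∫⁻ z in closedBall (0 : ℂ) R, ‖u z‖ₑ with hIu
        have hIu' : Iu ≠ ⊤ :=
          (hu.loc.integrableOn_isCompact (isCompact_closedBall (0 : ℂ) R)).2.ne
        set e : ℕ → ℝ := fun n => L n / q / Real.log ((π n).X (τ n)) with he
        have hlim : Tendsto (fun n : ℕ => ‖e n‖ₑ * ENNReal.ofReal (1 / ((n : ℝ) + 1)) +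
            ‖e n - 1‖ₑ * Iu) atTop (𝓝 0) := by
          have h1 : Tendsto (fun n => ‖e n‖ₑ) atTop (𝓝 1) := by
            have := hrat.enorm
            simpa using this
          have h2 : Tendsto (fun n : ℕ => ENNReal.ofReal (1 / ((n : ℝ) + 1))) atTop (𝓝 0) := by
            have := ENNReal.tendsto_ofReal (tendsto_one_div_add_atTop_nhds_zero_nat (𝕜 := ℝ))
            rwa [ENNReal.ofReal_zero] at this
          have h3 : Tendsto (fun n => ‖e n - 1‖ₑ) atTop (𝓝 0) := by
            have := (hrat.sub_const 1).enorm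
            simpa using this
          have h4 := (ENNReal.Tendsto.mul h1 (Or.inr ENNReal.zero_ne_top) h2
            (Or.inr ENNReal.one_ne_top)).add
            (ENNReal.Tendsto.mul_const h3 (Or.inr hIu'))
          rwa [mul_zero, zero_mul, add_zero] at h4
        refine tendsto_of_tendsto_of_tendsto_of_le_of_le' tendsto_const_nhds hlim
          (Eventually.of_forall fun n => zero_le) ?_
        obtain ⟨n₀, hn₀⟩ := exists_nat_ge R
        filter_upwards [eventually_ge_atTop n₀] with n hn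
        have hRn : R ≤ (n : ℝ) + 1 := by
          have : (n₀ : ℝ) ≤ n := by exact_mod_cast hn
          linarith
        have hpt : ∀ z : ℂ, ‖Real.log ‖F n z‖ / Real.log ((π n).X (τ n)) - u z‖ₑ ≤
            ‖e n‖ₑ * ‖Real.log ‖F n z‖ / (Real.log (N n) / q) - u z‖ₑ + ‖e n - 1‖ₑ * ‖u z‖ₑ := by
          intro z
          rw [← enorm_mul, ← enorm_mul]
          have e1 : Real.log ‖F n z‖ / Real.log ((π n).X (τ n)) - u z =
              e n * (Real.log ‖F n z‖ / (Real.log (N n) / q) - u z) + (e n - 1) * u z := by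
            have h1 : e n * (Real.log ‖F n z‖ / (Real.log (N n) / q)) =
                Real.log ‖F n z‖ / Real.log ((π n).X (τ n)) := by
              show L n / q / Real.log ((π n).X (τ n)) * (Real.log ‖F n z‖ / (L n / q)) = _
              have := (hL0 n).ne'
              field_simp
            rw [mul_sub, h1]
            ring
          rw [e1]
          exact enorm_add_le _ _
        have hmu : AEMeasurable (fun z => ‖e n - 1‖ₑ * ‖u z‖ₑ)
            (volume.restrict (closedBall (0 : ℂ) R)) :=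
          hu.loc.aestronglyMeasurable.restrict.enorm.const_mul _
        calc ∫⁻ z in closedBall (0 : ℂ) R,
              ‖Real.log ‖F n z‖ / Real.log ((π n).X (τ n)) - u z‖ₑ
            ≤ ∫⁻ z in closedBall (0 : ℂ) R,
              (‖e n‖ₑ * ‖Real.log ‖F n z‖ / (Real.log (N n) / q) - u z‖ₑ +
                ‖e n - 1‖ₑ * ‖u z‖ₑ) := lintegral_mono hpt
          _ = ‖e n‖ₑ * (∫⁻ z in closedBall (0 : ℂ) R,
                ‖Real.log ‖F n z‖ / (Real.log (N n) / q) - u z‖ₑ) + ‖e n - 1‖ₑ * Iu := by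
              rw [lintegral_add_right' _ hmu, lintegral_const_mul' _ _ (by simp),
                lintegral_const_mul' _ _ (by simp)]
          _ ≤ ‖e n‖ₑ * ENNReal.ofReal (1 / ((n : ℝ) + 1)) + ‖e n - 1‖ₑ * Iu := by
              gcongr
              refine le_trans ?_ (hL1 n)
              exact lintegral_mono_set (closedBall_subset_closedBall hRn)

end Pool.Agent.H96.LIM.REAL
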