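import Pool.Agent.H20.LIM.Targets

/-! # SEQ: convergent subsequences in the right half plane -/

set_option autoImplicit false

open Complex MeasureTheory Set Filter Topology Metric

namespace Pool.Agent.H96.LIM

open Pool.Agent.H20.LIM Pool.Agent.H23.GLM Pool.Agent.H23.DZ

/-- The discs used for the diagonal sequence. -/
noncomputable def Mc (σ₁ : ℝ) (n : ℕ) : ℝ := 8 * (n + 1) ^ 2 + |σ₁| + 1

lemma Mc_pos (σ₁ : ℝ) (n : ℕ) : 1 ≤ Mc σ₁ n := by
  unfold Mc
  have := abs_nonneg σ₁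
  have h2 : (0 : ℝ) ≤ 8 * ((n : ℝ) + 1) ^ 2 := by positivity
  linarith

lemma Mc_mono (σ₁ : ℝ) : Monotone (Mc σ₁) := by
  intro n m h
  unfold Mc
  have : (n : ℝ) ≤ m := by exact_mod_cast h
  have h0 : (0 : ℝ) ≤ n := Nat.cast_nonneg n
  gcongr

lemma D_mono (σ₁ : ℝ) :
    Monotone fun n => closedBall ((Mc σ₁ n : ℝ) : ℂ) (Mc σ₁ n + 1 / 16) := by
  intro n m h
  apply closedBall_subset_closedBall'
  have h1 := Mc_mono σ₁ h
  rw [dist_eq_norm, ← ofReal_sub, norm_real, Real.norm_of_nonpos (by linarith)]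
  linarith

lemma HD_sub (σ₁ R : ℝ) (hR : 0 < R) :
    ∃ n : ℕ, HD R ⊆ closedBall ((Mc σ₁ n : ℝ) : ℂ) (Mc σ₁ n + 1 / 16) := by
  obtain ⟨n, hn⟩ := exists_nat_ge R
  refine ⟨n, fun z hz => ?_⟩
  obtain ⟨h1, h2⟩ := hz
  rw [mem_closedBall, dist_zero_right] at h1
  have h2' : 0 ≤ z.re := h2
  have hM := Mc_pos σ₁ n
  have hM2 : 8 * R ^ 2 ≤ Mc σ₁ n := by
    unfold Mc
    have := abs_nonneg σ₁
    have h3 : R ^ 2 ≤ ((n : ℝ) + 1) ^ 2 := by
      apply pow_le_pow_left₀ hR.le; linarith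
    linarith
  rw [mem_closedBall, dist_eq_norm]
  apply le_of_sq_le_sq _ (by linarith)
  rw [← Complex.normSq_eq_norm_sq, Complex.normSq_apply]
  have h4 : z.re * z.re + z.im * z.im ≤ R ^ 2 := by
    rw [← Complex.normSq_apply, Complex.normSq_eq_norm_sq]
    exact pow_le_pow_left₀ (norm_nonneg _) h1 2
  simp only [sub_re, ofReal_re, sub_im, ofReal_im, sub_zero]
  have h5 : 0 ≤ Mc σ₁ n * z.re := mul_nonneg (by linarith) h2'
  nlinarith

theorem pf_seq (hCOMP : T_COMP) (hDIAG : T_DIAG) (hGRO : T_GRO) : T_SEQ := by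
  intro m S hM hF π t hπ hX
  obtain ⟨σ₁, c, hc, hfar⟩ := hF
  have key : ∀ n, ∃ K : Set (Lp ℝ 1 (volume.restrict
      (closedBall ((Mc σ₁ n : ℝ) : ℂ) (Mc σ₁ n + 1 / 16)))), IsCompact K ∧
      ∀ᶠ k in atTop, ∃ x ∈ K, (x : ℂ → ℝ) =ᵐ[volume.restrict
        (closedBall ((Mc σ₁ n : ℝ) : ℂ) (Mc σ₁ n + 1 / 16))] U (π k) (t k) := by
    intro n
    have hMn := Mc_pos σ₁ n
    set M := Mc σ₁ n with hMdef
    obtain ⟨A', K', hA', hgro⟩ := hGRO m S hM (2 * M + 2) (by linarith)
    have hlA : 0 ≤ Real.log A' := Real.log_nonneg hA'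
    set A := 1 + Real.log A' + |Real.log c| with hA
    have hA0 : 0 < A := by have := abs_nonneg (Real.log c); linarith
    obtain ⟨K, hK, hcomp⟩ := hCOMP (M : ℂ) (M + 1 / 16) (M + 1 / 8) A (by linarith)
      (by linarith) hA0
    refine ⟨K, hK, ?_⟩
    filter_upwards [hX.eventually_ge_atTop K', hX.eventually_ge_atTop (Real.exp 1)] with k hk1 hk2
    have hX0 : 0 < (π k).X (t k) := (Real.exp_pos 1).trans_le hk2
    have hΛ : 1 ≤ Real.log ((π k).X (t k)) := by
      rw [Real.le_log_iff_exp_le hX0]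
      exact hk2
    have hg := hgro (π k) (hπ k) (t k) hk1
    have hin : ∀ z ∈ closedBall (M : ℂ) (M + 1 / 8), -(1 / 4) ≤ z.re ∧ ‖z‖ ≤ 2 * M + 1 := by
      intro z hz
      rw [mem_closedBall, dist_eq_norm] at hz
      have h1 := (abs_le.mp ((abs_re_le_norm (z - M)).trans hz)).1
      rw [sub_re, ofReal_re] at h1
      refine ⟨by linarith, ?_⟩
      have h2 : ‖z‖ ≤ ‖z - M‖ + ‖(M : ℂ)‖ := by
        have := norm_add_le (z - M) (M : ℂ)
        rwa [sub_add_cancel] at this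
      rw [norm_real, Real.norm_of_nonneg (by linarith)] at h2
      linarith
    have h := hcomp (fun z => (π k).L (1 / 2 + t k * I + z)) (Real.log ((π k).X (t k))) hΛ ?_ ?_ ?_
    · exact h
    · intro z hz
      have hd : DifferentiableOn ℂ (fun z => (π k).L (1 / 2 + t k * I + z))
          (ball 0 (2 * M + 2)) := by
        intro w hw
        have hw' : ‖w‖ ≤ 2 * M + 2 := by
          rw [mem_ball, dist_zero_right] at hw; exact hw.le
        have h1 := (hg w hw').1
        have h2 : DifferentiableAt ℂ (fun z : ℂ => 1 / 2 + t k * I + z) w := by fun_prop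
        exact (DifferentiableAt.comp w h1 h2).differentiableWithinAt
      refine hd.analyticAt (isOpen_ball.mem_nhds ?_)
      rw [mem_ball, dist_zero_right]
      have := (hin z hz).2
      linarith
    · intro z hz
      obtain ⟨h1, h2⟩ := hin z hz
      refine ((hg z (by linarith)).2 h1).trans ?_
      have h3 : A' * (π k).X (t k) = Real.exp (Real.log A' + Real.log ((π k).X (t k))) := by
        rw [Real.exp_add, Real.exp_log (by linarith), Real.exp_log hX0]
      rw [h3]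
      apply Real.exp_le_exp.mpr
      rw [hA]
      have := abs_nonneg (Real.log c)
      nlinarith
    · have hre : σ₁ ≤ (1 / 2 + t k * I + (M : ℂ)).re := by
        have h1 : (1 / 2 + t k * I + (M : ℂ)).re = 1 / 2 + M := by simp
        rw [h1, hMdef]
        unfold Mc
        have := le_abs_self σ₁
        have h2 : (0 : ℝ) ≤ 8 * ((n : ℝ) + 1) ^ 2 := by positivity
        linarith
      refine le_trans ?_ (hfar (π k) (hπ k) _ hre).1
      refine le_trans (Real.exp_le_exp.mpr ?_) (Real.exp_log hc).le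
      rw [hA]
      have h1 := neg_abs_le (Real.log c)
      have h2 := abs_nonneg (Real.log c)
      nlinarith
  obtain ⟨φ, hφ, u, hu, hlim⟩ := hDIAG (fun n => closedBall ((Mc σ₁ n : ℝ) : ℂ) (Mc σ₁ n + 1 / 16))
    (fun k => U (π k) (t k)) (D_mono σ₁) (fun n => measurableSet_closedBall) key
  refine ⟨φ, hφ, u, hu, fun R hR => ?_⟩
  obtain ⟨n, hn⟩ := HD_sub σ₁ R hR
  obtain ⟨h1, h2⟩ := hlim n
  refine ⟨h1.mono_set hn, ?_⟩
  exact tendsto_of_tendsto_of_tendsto_of_le_of_le tendsto_const_nhds h2 (fun k => zero_le)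
    (fun k => lintegral_mono_set hn)

end Pool.Agent.H96.LIM
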